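import Pool.Agent.Lib.MP_4fbe7c_an.FC.Iface
import Pool.Agent.Lib.MP_4fbe7c_an.SD.Int
import Pool.Agent.Lib.MP_4fbe7c_an.SD.SteadyB

/-!
Project FC (MP_4fbe7c_an), module CLS: small dissipation means that `g` is small and that `f` is
not much smaller than `θ`.
-/

set_option autoImplicit false

open Set MeasureTheory intervalIntegral

namespace Pool.Agent.Lib.MP_4fbe7c_an.FC.H70

open Pool.Agent.Lib.MP_4fbe7c_an.SD Pool.Agent.Lib.MP_4fbe7c_an.SD.H95

/-- An interval of length `r ≤ L / 2` near `x`. -/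
theorem near_interval {L r x : ℝ} (_hr0 : 0 < r) (hrL : r ≤ L / 2) (hx : x ∈ Icc 0 L) :
    ∃ a b : ℝ, a + r = b ∧ 0 ≤ a ∧ b ≤ L ∧ ∀ y ∈ Icc a b, |y - x| ≤ r := by
  rcases le_total x (L / 2) with h | h
  · refine ⟨x, x + r, rfl, hx.1, by linarith, fun y hy => ?_⟩
    rw [abs_of_nonneg (by linarith [hy.1])]; linarith [hy.2]
  · refine ⟨x - r, x, by ring, by linarith, hx.2, fun y hy => ?_⟩
    rw [abs_of_nonpos (by linarith [hy.2])]; linarith [hy.1]

theorem Hf_continuous : Continuous fun p : ℝ × ℝ => Hf p.1 p.2 := by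
  unfold Hf
  fun_prop

/-- A continuous nonnegative function which is at least `c` on an interval of length `r`. -/
theorem integral_ge_of_near {L r c : ℝ} {F : ℝ → ℝ} (hL : 0 < L) (hr0 : 0 < r)
    (hF : ContinuousOn F (Icc 0 L)) (h0 : ∀ x ∈ Icc 0 L, 0 ≤ F x) {a b : ℝ} (hab : a + r = b)
    (ha : 0 ≤ a) (hb : b ≤ L) (hc : ∀ y ∈ Icc a b, c ≤ F y) :
    r * c ≤ ∫ x in (0)..L, F x := by
  have hab' : a ≤ b := by linarith
  have hsub : Icc a b ⊆ Icc 0 L := Icc_subset_Icc ha hb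
  have hi : ∀ p q : ℝ, p ∈ Icc 0 L → q ∈ Icc 0 L → IntervalIntegrable F volume p q :=
    fun p q hp hq => intble hF hp hq
  have h0m : (0 : ℝ) ∈ Icc 0 L := ⟨le_refl 0, hL.le⟩
  have hLm : L ∈ Icc 0 L := ⟨hL.le, le_refl L⟩
  have ham : a ∈ Icc 0 L := ⟨ha, by linarith⟩
  have hbm : b ∈ Icc 0 L := ⟨by linarith, hb⟩
  have h1 : r * c ≤ ∫ z in a..b, F z := by
    have : ∫ z in a..b, c ≤ ∫ z in a..b, F z :=
      integral_mono_on hab' intervalIntegrable_const (hi a b ham hbm) hc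
    rw [intervalIntegral.integral_const, smul_eq_mul, show b - a = r by linarith] at this
    exact this
  have h2 : 0 ≤ ∫ z in (0)..a, F z :=
    integral_nonneg ha fun z hz => h0 z ⟨hz.1, hz.2.trans (by linarith)⟩
  have h3 : 0 ≤ ∫ z in b..L, F z :=
    integral_nonneg hb fun z hz => h0 z ⟨(by linarith [hz.1] : (0 : ℝ) ≤ z), hz.2⟩
  have h4 := integral_add_adjacent_intervals (hi 0 a h0m ham) (hi a b ham hbm)
  have h5 := integral_add_adjacent_intervals (hi 0 b h0m hbm) (hi b L hbm hLm)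
  linarith

theorem cls (h1 : GfuStatement) : ClsStatement := by
  obtain ⟨-, -, -, hH0, hH1⟩ := h1
  intro L d₀ d₁ K ε m θ θ' θ'' hL hm hnc hd₀ hd₁ hθ hε
  have h0m : (0 : ℝ) ∈ Icc 0 L := ⟨le_refl 0, hL.le⟩
  have hLm : L ∈ Icc 0 L := ⟨hL.le, le_refl L⟩
  have hθc : ContinuousOn θ (Icc 0 L) := st_c0 hθ
  have hθ'c : ContinuousOn θ' (Icc 0 L) := st_c1 hθ
  obtain ⟨xm, hxm, hmin⟩ := isCompact_Icc.exists_isMinOn ⟨0, h0m⟩ hθc
  obtain ⟨xM, hxM, hmax⟩ := isCompact_Icc.exists_isMaxOn ⟨0, h0m⟩ hθc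
  obtain ⟨τ, hτ⟩ : ∃ τ, τ = θ xm := ⟨_, rfl⟩
  obtain ⟨Th, hTh⟩ : ∃ Th, Th = θ xM := ⟨_, rfl⟩
  have hτ0 : 0 < τ := hτ ▸ hθ.pos xm hxm
  have hTh0 : 0 < Th := hTh ▸ hθ.pos xM hxM
  have hτle : ∀ x ∈ Icc 0 L, τ ≤ θ x := fun x hx => hτ ▸ hmin hx
  have hThle : ∀ x ∈ Icc 0 L, θ x ≤ Th := fun x hx => hTh ▸ hmax hx
  -- the constants
  obtain ⟨I0, hI0⟩ : ∃ I0, I0 = ∫ x in (0)..L, (θ' x / θ x) ^ 2 := ⟨_, rfl⟩
  have hI0p : 0 < I0 := by rw [hI0]; exact int_zeta_pos hL hnc hθ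
  obtain ⟨C, hC⟩ : ∃ C, C = 2 / (d₁ - d₀) + 2 / d₀ := ⟨_, rfl⟩
  have hdd : 0 < d₁ - d₀ := by linarith
  have hC0 : 0 < C := by rw [hC]; positivity
  obtain ⟨a, ha⟩ : ∃ a, a = ε / (2 * Th) := ⟨_, rfl⟩
  have ha0 : 0 < a := by rw [ha]; positivity
  obtain ⟨ε₁, hε₁⟩ : ∃ ε₁, ε₁ = min ε (τ * a / 2) := ⟨_, rfl⟩
  have hε₁0 : 0 < ε₁ := by rw [hε₁]; exact lt_min hε (by positivity)
  have hε₁a : ε₁ ≤ ε := by rw [hε₁]; exact min_le_left _ _
  have hε₁b : ε₁ ≤ τ * a / 2 := by rw [hε₁]; exact min_le_right _ _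
  obtain ⟨K₂, hK₂⟩ : ∃ K₂, K₂ = 2 * (∫ x in (0)..L, θ' x ^ 2) + 2 * |K| + 1 := ⟨_, rfl⟩
  have hK₂0 : 0 < K₂ := by
    have : 0 ≤ ∫ x in (0)..L, θ' x ^ 2 := integral_nonneg hL.le fun x _ => sq_nonneg _
    rw [hK₂]
    have := abs_nonneg K
    linarith
  obtain ⟨r, hr⟩ : ∃ r, r = min (L / 2) (ε ^ 2 / (4 * K₂)) := ⟨_, rfl⟩
  have hr0 : 0 < r := by rw [hr]; exact lt_min (by linarith) (by positivity)
  have hrL : r ≤ L / 2 := by rw [hr]; exact min_le_left _ _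
  have hrK : r ≤ ε ^ 2 / (4 * K₂) := by rw [hr]; exact min_le_right _ _
  obtain ⟨δ, hδ⟩ : ∃ δ, δ = min ((d₁ - d₀) * ε₁ ^ 2 / (4 * L))
      (min (ε₁ ^ 2 * I0 / (8 * C)) (r * (τ ^ 3 * (a ^ 3 / 4)) / 2)) := ⟨_, rfl⟩
  have hδ0 : 0 < δ := by
    rw [hδ]
    exact lt_min (by positivity) (lt_min (by positivity) (by positivity))
  have hδ1 : δ ≤ (d₁ - d₀) * ε₁ ^ 2 / (4 * L) := by rw [hδ]; exact min_le_left _ _
  have hδ2 : δ ≤ ε₁ ^ 2 * I0 / (8 * C) := by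
    rw [hδ]; exact (min_le_right _ _).trans (min_le_left _ _)
  have hδ3 : δ ≤ r * (τ ^ 3 * (a ^ 3 / 4)) / 2 := by
    rw [hδ]; exact (min_le_right _ _).trans (min_le_right _ _)
  refine ⟨δ, hδ0, ?_⟩
  intro f f' g g' hf hg hf' hg' hpos hK hDis
  have hfc : ContinuousOn f (Icc 0 L) := fun x hx => (hf x hx).continuousWithinAt
  have hgc : ContinuousOn g (Icc 0 L) := fun x hx => (hg x hx).continuousWithinAt
  have hθne : ∀ x ∈ Icc 0 L, θ x ≠ 0 := fun x hx => (hθ.pos x hx).ne'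
  -- continuity of the integrands
  have cζ : ContinuousOn (fun x => θ' x / θ x) (Icc 0 L) := hθ'c.div hθc hθne
  have c2 : ContinuousOn (fun x => (g' x - θ' x / θ x * g x) ^ 2) (Icc 0 L) :=
    (hg'.sub (cζ.mul hgc)).pow 2
  have c3 : ContinuousOn (fun x => θ x ^ 3 * Hf (f x / θ x) (g x / θ x)) (Icc 0 L) := by
    apply (hθc.pow 3).mul
    exact Hf_continuous.comp_continuousOn ((hfc.div hθc hθne).prodMk (hgc.div hθc hθne))
  have n3 : ∀ x ∈ Icc 0 L, 0 ≤ θ x ^ 3 * Hf (f x / θ x) (g x / θ x) := by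
    intro x hx
    have h1 := hθ.pos x hx
    obtain ⟨h2, h3⟩ := hpos x hx
    exact mul_nonneg (by positivity) (hH0 _ _ (by positivity) (by positivity))
  -- the three terms
  obtain ⟨A1, hA1⟩ : ∃ A1, A1 = ∫ x in (0)..L, g' x ^ 2 := ⟨_, rfl⟩
  obtain ⟨A2, hA2⟩ : ∃ A2, A2 = ∫ x in (0)..L, (g' x - θ' x / θ x * g x) ^ 2 := ⟨_, rfl⟩
  obtain ⟨A3, hA3⟩ : ∃ A3, A3 = ∫ x in (0)..L, θ x ^ 3 * Hf (f x / θ x) (g x / θ x) := ⟨_, rfl⟩
  have hA1n : 0 ≤ A1 := by rw [hA1]; exact integral_nonneg hL.le fun x _ => sq_nonneg _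
  have hA2n : 0 ≤ A2 := by rw [hA2]; exact integral_nonneg hL.le fun x _ => sq_nonneg _
  have hA3n : 0 ≤ A3 := by rw [hA3]; exact integral_nonneg hL.le fun x hx => n3 x hx
  have hsum : (d₁ - d₀) * A1 + d₀ * A2 + A3 ≤ δ := by
    rw [hA1, hA2, hA3]; exact hDis
  have hA1δ : A1 ≤ δ / (d₁ - d₀) := by
    rw [le_div_iff₀ hdd]
    have := mul_nonneg hd₀.le hA2n
    nlinarith
  have hA2δ : A2 ≤ δ / d₀ := by
    rw [le_div_iff₀ hd₀]
    have := mul_nonneg hdd.le hA1n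
    nlinarith
  have hA3δ : A3 ≤ δ := by
    have h2 := mul_nonneg hd₀.le hA2n
    have h3 := mul_nonneg hdd.le hA1n
    linarith
  -- (i) g is small
  have hgsmall : ∀ x ∈ Icc 0 L, g x < ε₁ := by
    intro x0 hx0
    by_contra hge
    push Not at hge
    have hlow : ∀ y ∈ Icc 0 L, ε₁ / 2 ≤ g y := by
      intro y hy
      have h1 := osc_le hL (lam := 2 * L / ε₁) (by positivity) hg hg' (le_of_eq hA1.symm) hx0 hy
      have h2 : 2 * L / ε₁ * A1 ≤ ε₁ / 2 := by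
        calc 2 * L / ε₁ * A1 ≤ 2 * L / ε₁ * (δ / (d₁ - d₀)) :=
              mul_le_mul_of_nonneg_left hA1δ (by positivity)
          _ ≤ 2 * L / ε₁ * (((d₁ - d₀) * ε₁ ^ 2 / (4 * L)) / (d₁ - d₀)) := by
              apply mul_le_mul_of_nonneg_left _ (by positivity)
              exact div_le_div_of_nonneg_right hδ1 hdd.le
          _ = ε₁ / 2 := by field_simp; ring
      have h3 : |y - x0| / (2 * L / ε₁) ≤ ε₁ / 2 := by
        rw [div_le_iff₀ (by positivity)]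
        have : |y - x0| ≤ L := by
          rw [abs_le]; constructor <;> linarith [hy.1, hy.2, hx0.1, hx0.2]
        calc |y - x0| ≤ L := this
          _ = ε₁ / 2 * (2 * L / ε₁) := by field_simp
      have h4 := (abs_le.1 h1).1
      linarith
    have hζg : ∫ x in (0)..L, (θ' x / θ x) ^ 2 * g x ^ 2 ≤ C * δ := by
      have h1 : ∫ x in (0)..L, (θ' x / θ x) ^ 2 * g x ^ 2 ≤
          ∫ x in (0)..L, (2 * g' x ^ 2 + 2 * (g' x - θ' x / θ x * g x) ^ 2) := by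
        apply integral_mono_on hL.le
        · exact intble ((cζ.pow 2).mul (hgc.pow 2)) h0m hLm
        · exact (intble ((hg'.pow 2).const_mul 2) h0m hLm).add
            (intble (c2.const_mul 2) h0m hLm)
        · intro x _
          nlinarith [sq_nonneg (2 * g' x - θ' x / θ x * g x)]
      have s1 : ContinuousOn (fun x => 2 * g' x ^ 2) (Icc 0 L) :=
        continuousOn_const.mul (hg'.pow 2)
      have s2 : ContinuousOn (fun x => 2 * (g' x - θ' x / θ x * g x) ^ 2) (Icc 0 L) :=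
        continuousOn_const.mul c2
      have h2 : ∫ x in (0)..L, (2 * g' x ^ 2 + 2 * (g' x - θ' x / θ x * g x) ^ 2) =
          2 * A1 + 2 * A2 := by
        rw [integral_add (intble s1 h0m hLm) (intble s2 h0m hLm),
          intervalIntegral.integral_const_mul, intervalIntegral.integral_const_mul, hA1, hA2]
      rw [h2] at h1
      calc ∫ x in (0)..L, (θ' x / θ x) ^ 2 * g x ^ 2 ≤ 2 * A1 + 2 * A2 := h1
        _ ≤ 2 * (δ / (d₁ - d₀)) + 2 * (δ / d₀) := by linarith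
        _ = C * δ := by rw [hC]; ring
    have hlow2 : (ε₁ / 2) ^ 2 * I0 ≤ ∫ x in (0)..L, (θ' x / θ x) ^ 2 * g x ^ 2 := by
      rw [hI0, ← intervalIntegral.integral_const_mul]
      apply integral_mono_on hL.le
      · exact intble ((cζ.pow 2).const_mul _) h0m hLm
      · exact intble ((cζ.pow 2).mul (hgc.pow 2)) h0m hLm
      · intro x hx
        rw [mul_comm]
        apply mul_le_mul_of_nonneg_left _ (sq_nonneg _)
        exact pow_le_pow_left₀ (by positivity) (hlow x hx) 2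
    have hCδ : C * δ ≤ ε₁ ^ 2 * I0 / 8 := by
      calc C * δ ≤ C * (ε₁ ^ 2 * I0 / (8 * C)) := mul_le_mul_of_nonneg_left hδ2 hC0.le
        _ = ε₁ ^ 2 * I0 / 8 := by field_simp
    have : 0 < ε₁ ^ 2 * I0 := by positivity
    nlinarith
  intro x0 hx0
  refine ⟨(hgsmall x0 hx0).trans_le hε₁a, ?_⟩
  -- (ii) f is not much smaller than θ
  by_contra hle
  push Not at hle
  have hd : DerivOn L (fun x => θ x - f x) (fun x => θ' x - f' x) :=
    fun x hx => (hθ.d1 x hx).sub (hf x hx)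
  have hdc : ContinuousOn (fun x => θ' x - f' x) (Icc 0 L) := hθ'c.sub hf'
  have hdK : ∫ x in (0)..L, (θ' x - f' x) ^ 2 ≤ K₂ := by
    have h1 : ∫ x in (0)..L, (θ' x - f' x) ^ 2 ≤ ∫ x in (0)..L, (2 * θ' x ^ 2 + 2 * f' x ^ 2) := by
      apply integral_mono_on hL.le
      · exact intble (hdc.pow 2) h0m hLm
      · exact (intble ((hθ'c.pow 2).const_mul 2) h0m hLm).add
          (intble ((hf'.pow 2).const_mul 2) h0m hLm)
      · intro x _
        nlinarith [sq_nonneg (θ' x + f' x)]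
    have s1 : ContinuousOn (fun x => 2 * θ' x ^ 2) (Icc 0 L) :=
      continuousOn_const.mul (hθ'c.pow 2)
    have s2 : ContinuousOn (fun x => 2 * f' x ^ 2) (Icc 0 L) :=
      continuousOn_const.mul (hf'.pow 2)
    rw [integral_add (intble s1 h0m hLm) (intble s2 h0m hLm),
      intervalIntegral.integral_const_mul, intervalIntegral.integral_const_mul] at h1
    have := le_abs_self K
    rw [hK₂]
    linarith
  have hnear : ∀ y ∈ Icc 0 L, |y - x0| ≤ r → ε / 2 ≤ θ y - f y := by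
    intro y hy hyx
    have h1 := osc_le hL (lam := ε / (2 * K₂)) (by positivity) hd hdc hdK hx0 hy
    have h2 : |y - x0| / (ε / (2 * K₂)) ≤ ε / 2 := by
      rw [div_le_iff₀ (by positivity)]
      calc |y - x0| ≤ ε ^ 2 / (4 * K₂) := hyx.trans hrK
        _ = ε / 2 * (ε / (2 * K₂)) := by field_simp; ring
    have h3 : ε / (2 * K₂) * K₂ = ε / 2 := by field_simp
    rw [h3] at h1
    have h4 := (abs_le.1 h1).1
    linarith
  obtain ⟨b₁, b₂, hab, hb1, hb2, hr'⟩ := near_interval hr0 hrL hx0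
  have hint := integral_ge_of_near (c := τ ^ 3 * (a ^ 3 / 4)) hL hr0 c3 n3 hab hb1 hb2 (by
    intro y hy
    have hyI : y ∈ Icc 0 L := ⟨hb1.trans hy.1, hy.2.trans hb2⟩
    have hθy := hθ.pos y hyI
    have hτy := hτle y hyI
    have hTy := hThle y hyI
    have h1 := hnear y hyI (hr' y hy)
    have hp1 : f y / θ y ≤ 1 - a := by
      rw [div_le_iff₀ hθy]
      have : a * θ y ≤ ε / 2 := by
        calc a * θ y ≤ a * Th := mul_le_mul_of_nonneg_left hTy ha0.le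
          _ = ε / 2 := by rw [ha]; field_simp
      nlinarith
    have hp2 : 0 ≤ g y / θ y := div_nonneg (hpos y hyI).2 hθy.le
    have hp3 : g y / θ y ≤ a / 2 := by
      rw [div_le_iff₀ hθy]
      have h2 := hgsmall y hyI
      have h3 : τ * a / 2 ≤ a / 2 * θ y := by nlinarith
      linarith
    have h4 := hH1 a (f y / θ y) (g y / θ y) ha0 hp1 hp2 hp3
    have h5 : τ ^ 3 ≤ θ y ^ 3 := pow_le_pow_left₀ hτ0.le hτy 3
    exact mul_le_mul h5 h4 (by positivity) (by positivity))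
  rw [← hA3] at hint
  have : 0 < r * (τ ^ 3 * (a ^ 3 / 4)) := by positivity
  linarith

end Pool.Agent.Lib.MP_4fbe7c_an.FC.H70
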