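import Pool.Agent.Lib.MP_4fbe7c_an.FC.Iface
import Pool.Agent.Lib.MP_4fbe7c_an.SD.Apri1

/-!
Project FC (MP_4fbe7c_an), module UPB: the present slowest species is eventually at most
`θ + ε`; comparison with `(1 + B exp (-k t)) θ`.
-/

set_option autoImplicit false

open Set

namespace Pool.Agent.Lib.MP_4fbe7c_an.FC.H70

open Pool.Agent.Lib.MP_4fbe7c_an.SD

theorem upb : UpbStatement := by
  intro L M m θ θ' θ'' N d u v w i₀ hctx hθ ε hε
  obtain ⟨hL, hM0, hm, hM, hd, hsol⟩ := hctx
  have h0m : (0 : ℝ) ∈ Icc 0 L := ⟨le_refl 0, hL.le⟩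
  have hθc : ContinuousOn θ (Icc 0 L) := fun x hx => (hθ.d1 x hx).continuousWithinAt
  have hnn := nonneg hL hm hd hsol
  -- bounds of θ
  obtain ⟨xm, hxm, hmin⟩ := isCompact_Icc.exists_isMinOn ⟨0, h0m⟩ hθc
  obtain ⟨xM, hxM, hmax⟩ := isCompact_Icc.exists_isMaxOn ⟨0, h0m⟩ hθc
  set k : ℝ := θ xm with hk
  set Th : ℝ := θ xM with hTh
  have hk0 : 0 < k := hθ.pos xm hxm
  have hTh0 : 0 < Th := hθ.pos xM hxM
  have hkle : ∀ x ∈ Icc 0 L, k ≤ θ x := fun x hx => hmin hx
  have hThle : ∀ x ∈ Icc 0 L, θ x ≤ Th := fun x hx => hmax hx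
  -- bound of the initial value
  have hu0c : ContinuousOn (fun x => u i₀ 0 x) (Icc 0 L) :=
    (hsol.cu i₀).comp (continuousOn_const.prodMk continuousOn_id)
      (fun x hx => ⟨mem_Ici.2 le_rfl, hx⟩)
  obtain ⟨x1, hx1, hmax1⟩ := isCompact_Icc.exists_isMaxOn ⟨0, h0m⟩ hu0c
  set B : ℝ := u i₀ 0 x1 / k with hB
  have hB0 : 0 ≤ B := div_nonneg (hsol.init i₀ x1 hx1) hk0.le
  have hBle : ∀ x ∈ Icc 0 L, u i₀ 0 x ≤ B * θ x := by
    intro x hx
    have e1 : u i₀ 0 x ≤ u i₀ 0 x1 := hmax1 hx
    have e2 : u i₀ 0 x1 = B * k := by rw [hB]; field_simp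
    calc u i₀ 0 x ≤ B * k := by rw [← e2]; exact e1
      _ ≤ B * θ x := mul_le_mul_of_nonneg_left (hkle x hx) hB0
  -- the comparison
  have hβ : ∀ t : ℝ, HasDerivAt (fun r => 1 + B * Real.exp (-(k * r)))
      (B * (Real.exp (-(k * t)) * -k)) t := by
    intro t
    have h1 : HasDerivAt (fun r : ℝ => -(k * r)) (-k) t := by
      simpa [neg_mul] using (hasDerivAt_id t).const_mul (-k)
    exact ((h1.exp).const_mul B).const_add 1
  have key : ∀ T : ℝ, 0 ≤ T → ∀ x ∈ Icc 0 L,
      u i₀ T x ≤ (1 + B * Real.exp (-(k * T))) * θ x := by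
    intro T hT x hx
    have hsub : Icc 0 T ×ˢ Icc 0 L ⊆ Ici 0 ×ˢ Icc 0 L :=
      prod_mono (fun t ht => ht.1) (fun _ h => h)
    have := comparison (w := fun t x => u i₀ t x - (1 + B * Real.exp (-(k * t))) * θ x)
      (wx := fun t x => v i₀ t x - (1 + B * Real.exp (-(k * t))) * θ' x)
      (wxx := fun t x => w i₀ t x - (1 + B * Real.exp (-(k * t))) * θ'' x)
      (wt := fun t x => (d i₀ * w i₀ t x + u i₀ t x * (m x - ∑ j, u j t x)) -
        (B * (Real.exp (-(k * t)) * -k)) * θ x)
      (c := fun _ _ => M) (d := d i₀) (K := M) (s := 0) (T := T) hL (hd i₀).le hT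
      (by
        apply ContinuousOn.sub
        · exact (hsol.cu i₀).mono hsub
        · apply ContinuousOn.mul
          · apply Continuous.continuousOn
            fun_prop
          · exact hθc.comp continuousOn_snd (fun p hp => hp.2))
      (fun t ht y hy => (hsol.dx i₀ t ht.1 y hy).sub ((hθ.d1 y hy).const_mul _))
      (fun t ht y hy => (hsol.dxx i₀ t ht.1 y hy).sub ((hθ.d2 y hy).const_mul _))
      (fun t ht => by
        show v i₀ t 0 - (1 + B * Real.exp (-(k * t))) * θ' 0 = 0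
        rw [hsol.b0 i₀ t ht.1, hθ.b0]; ring)
      (fun t ht => by
        show v i₀ t L - (1 + B * Real.exp (-(k * t))) * θ' L = 0
        rw [hsol.bL i₀ t ht.1, hθ.bL]; ring)
      (fun t ht y hy => (hsol.dt i₀ t ht.1 y hy).sub ((hβ t).mul_const (θ y)))
      (fun t ht y hy hw => by
        have hw' : 0 < u i₀ t y - (1 + B * Real.exp (-(k * t))) * θ y := hw
        show (d i₀ * w i₀ t y + u i₀ t y * (m y - ∑ j, u j t y)) -
          (B * (Real.exp (-(k * t)) * -k)) * θ y ≤
          d i₀ * (w i₀ t y - (1 + B * Real.exp (-(k * t))) * θ'' y) +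
            M * (u i₀ t y - (1 + B * Real.exp (-(k * t))) * θ y)
        set E : ℝ := Real.exp (-(k * t)) with hE
        have hE0 : 0 < E := Real.exp_pos _
        have hBE : 0 ≤ B * E := mul_nonneg hB0 hE0.le
        have hun := hnn i₀ t ht.1.le y hy
        have h1 : u i₀ t y ≤ ∑ j, u j t y :=
          Finset.single_le_sum (f := fun j => u j t y) (fun j _ => hnn j t ht.1.le y hy)
            (Finset.mem_univ i₀)
        have h2 : m y ≤ M := (abs_le.1 (hM y hy)).2
        have h3 : u i₀ t y * (m y - ∑ j, u j t y) ≤ u i₀ t y * (m y - u i₀ t y) :=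
          mul_le_mul_of_nonneg_left (by linarith) hun
        have h4 := hθ.eq y hy
        have h5 := hkle y hy
        have hθ0 := hθ.pos y hy
        have h6 : d i₀ * θ'' y = -(θ y * (m y - θ y)) := by linarith
        have h7 : d i₀ * (w i₀ t y - (1 + B * E) * θ'' y) =
            d i₀ * w i₀ t y + (1 + B * E) * (θ y * (m y - θ y)) := by
          have : d i₀ * (w i₀ t y - (1 + B * E) * θ'' y) =
            d i₀ * w i₀ t y - (1 + B * E) * (d i₀ * θ'' y) := by ring
          rw [this, h6]; ring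
        rw [h7]
        -- the difference
        have h8 : 0 ≤ (B * E) * θ y * ((1 + B * E) * θ y - k) := by
          apply mul_nonneg (mul_nonneg hBE hθ0.le)
          nlinarith [mul_nonneg hBE hθ0.le]
        have h9 : 0 ≤ (u i₀ t y - (1 + B * E) * θ y) *
            (M - (m y - u i₀ t y - (1 + B * E) * θ y)) := by
          apply mul_nonneg hw'.le
          have : 0 ≤ (1 + B * E) * θ y := by positivity
          linarith
        nlinarith [h3, h8, h9])
      (fun _ _ _ _ => le_rfl)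
      (fun y hy => by
        show u i₀ 0 y - (1 + B * Real.exp (-(k * 0))) * θ y ≤ 0
        rw [mul_zero, neg_zero, Real.exp_zero, mul_one]
        have h1 := hBle y hy
        have h2 := hθ.pos y hy
        nlinarith)
      T ⟨hT, le_rfl⟩ x hx
    have h2 : u i₀ T x - (1 + B * Real.exp (-(k * T))) * θ x ≤ 0 := this
    linarith
  -- choice of the time
  have hlim : Filter.Tendsto (fun t : ℝ => B * Real.exp (-(k * t)) * Th) Filter.atTop
      (nhds (B * 0 * Th)) := by
    apply Filter.Tendsto.mul_const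
    apply Filter.Tendsto.const_mul
    exact Real.tendsto_exp_neg_atTop_nhds_zero.comp
      (Filter.tendsto_id.const_mul_atTop hk0)
  rw [mul_zero, zero_mul] at hlim
  have hev := (hlim.eventually (gt_mem_nhds hε)).and (Filter.eventually_ge_atTop 1)
  obtain ⟨T, hT⟩ := Filter.eventually_atTop.1 hev
  refine ⟨max T 1, lt_of_lt_of_le one_pos (le_max_right _ _), ?_⟩
  intro t ht x hx
  obtain ⟨h1, h2⟩ := hT t ((le_max_left _ _).trans ht)
  have h3 := key t (by linarith) x hx
  have h4 : B * Real.exp (-(k * t)) * θ x ≤ B * Real.exp (-(k * t)) * Th :=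
    mul_le_mul_of_nonneg_left (hThle x hx) (by positivity)
  calc u i₀ t x ≤ (1 + B * Real.exp (-(k * t))) * θ x := h3
    _ = θ x + B * Real.exp (-(k * t)) * θ x := by ring
    _ < θ x + ε := by linarith

end Pool.Agent.Lib.MP_4fbe7c_an.FC.H70
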